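import Pool.Agent.Q301.TM.FinM

/-!
# A countable union of `2`-embedded `ℕ`-compact subspaces that is not `ℕ`-compact

If there is a model of ZF, then there is a model of ZF with a zero-dimensional `T₁`-space `x` that
is the union of a sequence of `2`-embedded `ℕ`-compact subspaces and is not `ℕ`-compact.
-/

namespace Pool.Agent.Results.MP_63c7e0_lc.UnionNotNCompact

open FirstOrder FirstOrder.Language
open Pool.Agent.Helper672.Plain (LSet Mem El)
open Pool.Agent.H635Amen (ZF IsReals)
open Pool.Agent.H310Top (IsTopology)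
open Pool.Agent.Q301.TM

universe u

theorem result (h : ∃ (M : Type u) (_ : LSet.Structure M), ZF M) :
    ∃ (N : Type u) (_ : LSet.Structure N), ZF N ∧
      ∃ t x : N, IsTopology t x ∧ IsT1 t x ∧ IsZeroDim t x ∧
        (∃ (w b : N) (A : El w → El b), IsUnionOf A x ∧ ∀ n, ∃ s, IsSubspace s (A n).1 t ∧
          IsNCompact s (A n).1 ∧ IsTwoEmbedded s (A n).1 t x) ∧
        ¬ IsNCompact t x := by
  exact Pool.Agent.Q301.TM.p63c7e0 h

end Pool.Agent.Results.MP_63c7e0_lc.UnionNotNCompact
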